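import Mathlib
import Pool.Agent.Helper79.CF.Main

set_option autoImplicit false

/-!
# Computable real quadratic polynomials which satisfy Conjecture F

For a real polynomial the prime values are those of the integer parts. We prove the laws of Hardy and
Littlewood type for the real polynomials `(1 + t) f`, for **all** integral polynomials `f` (in particular all
quadratic ones) of positive degree and positive leading coefficient at the same time, and along all
computable sets, if the binary digits of `t` are Schnorr random; and for **computable** numbers `t`, with
any prescribed first digits.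
-/

namespace Pool.Agent.Results.MP_a17b09_nt.ComputableMultipliers

open Filter Topology MeasureTheory
open Pool.Agent.Helper88.EL (Schnorr dgs)
open Pool.Agent.Helper79.CF (Digits LogDense Law SumLaw)

theorem result :
    -- almost every number has Schnorr random digits
    (∀ᵐ t ∂(volume.restrict (Set.Ico (0 : ℝ) 1)), Schnorr (dgs t) ∧ Digits (dgs t) t) ∧
    -- the laws for every number with Schnorr random digits, all polynomials, all computable sets
    (∀ b : ℕ → Bool, Schnorr b → ∀ t : ℝ, Digits b t → ∀ s : ℕ → Bool, Computable s →
      ∀ f : Polynomial ℤ, 1 ≤ f.natDegree → 0 < f.leadingCoeff →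
        SumLaw t f {n | s n = true} ∧ (LogDense {n | s n = true} → Law t f {n | s n = true})) ∧
    -- computable numbers with prescribed first digits, for a computable sequence of sets
    (∀ s : ℕ → ℕ → Bool, Computable₂ s → ∀ (c : ℕ → Bool) (k : ℕ),
      ∃ (b : ℕ → Bool) (t : ℝ), Computable b ∧ (∀ i < k, b i = c i) ∧ Digits b t ∧
      ∀ f : Polynomial ℤ, 1 ≤ f.natDegree → 0 < f.leadingCoeff →
        SumLaw t f Set.univ ∧ Law t f Set.univ ∧
        ∀ i, SumLaw t f {n | s i n = true} ∧
          (LogDense {n | s i n = true} → Law t f {n | s i n = true})) :=
  Pool.Agent.Helper79.CF.final2 Pool.Agent.Helper52.CF.TST.main Pool.Agent.Helper24.CF.CMP.main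
    Pool.Agent.Helper79.CF.dev_all Pool.Agent.Helper79.CF.mea_all Pool.Agent.Helper74.CF.IDX.main
    Pool.Agent.Helper41.CF.SCL.main Pool.Agent.Helper27.CF.GRW.main Pool.Agent.Helper27.CF.ENM.main
    Pool.Agent.Helper49.CF.REA.main

end Pool.Agent.Results.MP_a17b09_nt.ComputableMultipliers
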