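import Pool.Graph.R_pool_sql_team_seeded_b3bd081e.Results.MP_a17b09_nt.EvenAlmostPrimes
import Pool.Graph.R_pool_sql_team_seeded_b3bd081e.Results.MP_a17b09_nt.EvenRoughDisc32
import Pool.Agent.Helper8.Mono.FamW5
import Pool.Agent.Helper8.Mono.FamC4
import Pool.Agent.Helper8.Mono.FamR
import Pool.Agent.Helper8.Mono.FamE1
import Pool.Agent.Helper8.Mono.FamE2
import Pool.Agent.Helper8.Mono.FamE3

/-!
Monic quadratics `f(t) = t ^ 2 + b t + c` with nonsquare discriminant `D`: for which `D` do the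
values `f(t)` without small prime factors take the value `1` under every completely multiplicative
function with values `1` and `-1`? Exactly if `D` is not `1` modulo `3` and is `5` modulo `8`,
`12` modulo `16` or `0` modulo `32`.
-/

set_option autoImplicit false

namespace Pool.Agent.Results.MP_a17b09_nt.EvenRoughClassification

open Pool.Agent.Helper8.Mono

/-- weakening of the exponents -/
lemma weaken (b c : ℤ) (u v : ℝ) (n : ℕ) (hu : 1 / 4 ≤ u) (hv : 1 / 45000 ≤ v) (hn : n ≤ 602)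
    (H : ∃ X₀ : ℕ, ∀ h : ℕ → ℤ, (∀ m n : ℕ, m ≠ 0 → n ≠ 0 → h (m * n) = h m * h n) →
      (∀ m : ℕ, m ≠ 0 → h m = 1 ∨ h m = -1) → ∀ X : ℕ, X₀ ≤ X →
      (X : ℝ) ^ u / Real.log X ^ n ≤
        (({t : ℕ | 1 ≤ t ∧ t ≤ X ∧ 0 < (t : ℤ) ^ 2 + b * t + c ∧
          (∀ p : ℕ, p.Prime → (p : ℤ) ∣ (t : ℤ) ^ 2 + b * t + c → (X : ℝ) ^ v < p) ∧
          h ((t : ℤ) ^ 2 + b * t + c).toNat = 1} : Set ℕ).ncard : ℝ)) :
    ∃ X₀ : ℕ, ∀ h : ℕ → ℤ, (∀ m n : ℕ, m ≠ 0 → n ≠ 0 → h (m * n) = h m * h n) →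
      (∀ m : ℕ, m ≠ 0 → h m = 1 ∨ h m = -1) → ∀ X : ℕ, X₀ ≤ X →
      (X : ℝ) ^ ((1 : ℝ) / 4) / Real.log X ^ 602 ≤
        (({t : ℕ | 1 ≤ t ∧ t ≤ X ∧ 0 < (t : ℤ) ^ 2 + b * t + c ∧
          (∀ p : ℕ, p.Prime → (p : ℤ) ∣ (t : ℤ) ^ 2 + b * t + c →
            (X : ℝ) ^ ((1 : ℝ) / 45000) < p) ∧
          h ((t : ℤ) ^ 2 + b * t + c).toNat = 1} : Set ℕ).ncard : ℝ) := by
  obtain ⟨X₀, H⟩ := H
  refine ⟨max X₀ 3, fun h h1 h2 X hX => ?_⟩
  have hX0 : X₀ ≤ X := le_trans (le_max_left _ _) hX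
  have hX3 : 3 ≤ X := le_trans (le_max_right _ _) hX
  have hX3' : (3 : ℝ) ≤ X := by exact_mod_cast hX3
  have hX1 : (1 : ℝ) ≤ X := by linarith
  have hlog : 1 ≤ Real.log X := by
    rw [Real.le_log_iff_exp_le (by linarith)]
    have := Real.exp_one_lt_d9
    linarith
  refine le_trans ?_ ((H h h1 h2 X hX0).trans ?_)
  · have a1 : (X : ℝ) ^ ((1 : ℝ) / 4) ≤ (X : ℝ) ^ u := Real.rpow_le_rpow_of_exponent_le hX1 hu
    have a2 : Real.log X ^ n ≤ Real.log X ^ 602 := pow_le_pow_right₀ hlog hn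
    exact div_le_div₀ (Real.rpow_nonneg (by linarith) _) a1 (by positivity) a2
  · have hfin : ({t : ℕ | 1 ≤ t ∧ t ≤ X ∧ 0 < (t : ℤ) ^ 2 + b * t + c ∧
          (∀ p : ℕ, p.Prime → (p : ℤ) ∣ (t : ℤ) ^ 2 + b * t + c →
            (X : ℝ) ^ ((1 : ℝ) / 45000) < p) ∧
          h ((t : ℤ) ^ 2 + b * t + c).toNat = 1} : Set ℕ).Finite :=
      (Set.finite_Iic X).subset fun t ht => ht.2.1
    refine Nat.cast_le.2 (Set.ncard_le_ncard ?_ hfin)
    rintro t ⟨t1, t2, t3, t4, t5⟩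
    exact ⟨t1, t2, t3, fun p hp hd =>
      (Real.rpow_le_rpow_of_exponent_le hX1 hv).trans_lt (t4 p hp hd), t5⟩

/-- the cases in which the answer is positive -/
theorem positive (b c : ℤ) (hD : ¬ IsSquare (b ^ 2 - 4 * c)) (h3 : (b ^ 2 - 4 * c) % 3 ≠ 1)
    (hc : (b ^ 2 - 4 * c) % 8 = 5 ∨ (b ^ 2 - 4 * c) % 16 = 12 ∨ (b ^ 2 - 4 * c) % 32 = 0) :
    ∃ X₀ : ℕ, ∀ h : ℕ → ℤ, (∀ m n : ℕ, m ≠ 0 → n ≠ 0 → h (m * n) = h m * h n) →
      (∀ m : ℕ, m ≠ 0 → h m = 1 ∨ h m = -1) → ∀ X : ℕ, X₀ ≤ X →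
      (X : ℝ) ^ ((1 : ℝ) / 4) / Real.log X ^ 602 ≤
        (({t : ℕ | 1 ≤ t ∧ t ≤ X ∧ 0 < (t : ℤ) ^ 2 + b * t + c ∧
          (∀ p : ℕ, p.Prime → (p : ℤ) ∣ (t : ℤ) ^ 2 + b * t + c →
            (X : ℝ) ^ ((1 : ℝ) / 45000) < p) ∧
          h ((t : ℤ) ^ 2 + b * t + c).toNat = 1} : Set ℕ).ncard : ℝ) := by
  rcases hc with hc | hc
  · -- odd discriminant
    obtain ⟨X₀, H⟩ := EvenAlmostPrimes.part1 b c (by omega)
    refine weaken b c (1 / 2) (1 / 3600) 93 (by norm_num) (by norm_num) (by norm_num)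
      ⟨X₀, fun h h1 h2 X hX => ?_⟩
    refine H (fun n => h n = 1) (fun m n hm hn e1 e2 => ?_) X hX
    rw [h1 m n hm hn, (h2 m hm).resolve_left e1, (h2 n hn).resolve_left e2]
    norm_num
  · -- even discriminant
    have hb : b % 2 = 0 := by
      by_contra hcon
      obtain ⟨k, rfl⟩ : ∃ k, b = 2 * k + 1 := ⟨b / 2, by omega⟩
      have e : (2 * k + 1) ^ 2 = 4 * (k * (k + 1)) + 1 := by ring
      omega
    obtain ⟨k, rfl⟩ : ∃ k, b = 2 * k := ⟨b / 2, by omega⟩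
    obtain ⟨a, rfl⟩ : ∃ a, c = k ^ 2 + a := ⟨c - k ^ 2, by ring⟩
    have hDa : (2 * k) ^ 2 - 4 * (k ^ 2 + a) = -(4 * a) := by ring
    have ha : ¬ IsSquare (-a) := by
      rintro ⟨r, hr⟩
      apply hD
      rw [hDa]
      exact ⟨2 * r, by linear_combination 4 * hr⟩
    by_cases h5 : a % 8 = 0 ∧ a % 5 ≠ 4
    · have hD0 : (2 * k) ^ 2 - 4 * (k ^ 2 + a) ≠ 0 := by
        intro h0
        apply hD
        rw [h0]
        exact ⟨0, by norm_num⟩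
      exact weaken (2 * k) (k ^ 2 + a) (1 / 4) (1 / 14000) 186 (by norm_num) (by norm_num)
        (by norm_num) (EvenRoughDisc32.result (2 * k) (k ^ 2 + a) (by omega) hD0 h3 (by omega))
    · have hE : Nonempty (Eng a) := by
        rw [hDa] at hc h3
        by_cases h1 : a % 4 = 1
        · by_cases h4 : a % 5 = 4
          · obtain ⟨j, rfl⟩ : ∃ j, a = 4 * j + 1 := ⟨a / 4, by omega⟩
            exact RR.main j (by omega) h4
          · by_cases h8 : a % 8 = 1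
            · obtain ⟨j, rfl⟩ : ∃ j, a = 8 * j + 1 := ⟨a / 8, by omega⟩
              exact C4.main j (by omega) h4
            · obtain ⟨j, rfl⟩ : ∃ j, a = 8 * j + 5 := ⟨a / 8, by omega⟩
              exact W5.main j (by omega) h4 ha
        · by_cases h16 : a % 16 = 0
          · obtain ⟨i, rfl⟩ : ∃ i, a = 8 * E1.mm i := ⟨a / 16, by unfold E1.mm; omega⟩
            exact E1.main i (by omega) (by omega) ha
          · by_cases h0 : a % 3 = 0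
            · obtain ⟨i, rfl⟩ : ∃ i, a = 8 * E3.mm i := ⟨a / 48, by unfold E3.mm; omega⟩
              exact E3.main i (by omega) ha
            · obtain ⟨i, rfl⟩ : ∃ i, a = 8 * E2.mm i := ⟨a / 16, by unfold E2.mm; omega⟩
              exact E2.main i (by omega) (by omega) ha
      obtain ⟨φ⟩ := hE
      exact Pool.Agent.Helper8.Mono.main φ k

open Classical in
/-- the completely multiplicative function of a set of primes -/
lemma sign_of_set (S : Set ℕ) : ∃ h : ℕ → ℤ,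
    (∀ m n : ℕ, m ≠ 0 → n ≠ 0 → h (m * n) = h m * h n) ∧
    (∀ m : ℕ, m ≠ 0 → h m = 1 ∨ h m = -1) ∧
    ∀ m : ℕ, Odd (m.primeFactorsList.countP (fun l => decide (l ∈ S))) → h m = -1 := by
  refine ⟨fun m => (-1) ^ (m.primeFactorsList.countP (fun l => decide (l ∈ S))), ?_, ?_, ?_⟩
  · intro m n hm hn
    show (-1 : ℤ) ^ _ = (-1) ^ _ * (-1) ^ _
    rw [(Nat.perm_primeFactorsList_mul hm hn).countP_eq, List.countP_append, pow_add]
  · intro m _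
    exact neg_one_pow_eq_or ℤ _
  · intro m hm
    exact hm.neg_one_pow

/-- the remaining cases -/
theorem negative (b c : ℤ) (hc : ¬ ((b ^ 2 - 4 * c) % 3 ≠ 1 ∧
      ((b ^ 2 - 4 * c) % 8 = 5 ∨ (b ^ 2 - 4 * c) % 16 = 12 ∨ (b ^ 2 - 4 * c) % 32 = 0))) :
    ∃ h : ℕ → ℤ, (∀ m n : ℕ, m ≠ 0 → n ≠ 0 → h (m * n) = h m * h n) ∧
      (∀ m : ℕ, m ≠ 0 → h m = 1 ∨ h m = -1) ∧
      ∀ t : ℤ, 0 < t ^ 2 + b * t + c → ¬ 2 ∣ t ^ 2 + b * t + c → ¬ 3 ∣ t ^ 2 + b * t + c →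
        h (t ^ 2 + b * t + c).toNat = -1 := by
  have hb : (b ^ 2 - 4 * c) % 8 = 1 ∨ (b ^ 2 - 4 * c) % 8 = 5 ∨ (b ^ 2 - 4 * c) % 4 = 0 := by
    rcases Int.even_or_odd' b with ⟨k, rfl | rfl⟩
    · have e : (2 * k) ^ 2 = 4 * k ^ 2 := by ring
      omega
    · have e : (2 * k + 1) ^ 2 = 4 * (k * (k + 1)) + 1 := by ring
      have hk : k * (k + 1) % 2 = 0 := Int.even_iff.1 (Int.even_mul_succ_self k)
      omega
  by_cases h8 : (b ^ 2 - 4 * c) % 8 = 1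
  · refine ⟨fun _ => 1, fun _ _ _ _ => by norm_num, fun _ _ => Or.inl rfl, fun t _ h2 _ => ?_⟩
    exfalso
    apply h2
    have hbo : b % 2 = 1 := by
      by_contra hcon
      obtain ⟨k, rfl⟩ : ∃ k, b = 2 * k := ⟨b / 2, by omega⟩
      have e : (2 * k) ^ 2 = 4 * k ^ 2 := by ring
      omega
    obtain ⟨k, rfl⟩ : ∃ k, b = 2 * k + 1 := ⟨b / 2, by omega⟩
    have e : (2 * k + 1) ^ 2 = 4 * (k * (k + 1)) + 1 := by ring
    have hk : k * (k + 1) % 2 = 0 := Int.even_iff.1 (Int.even_mul_succ_self k)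
    have ht : t * (t + 1) % 2 = 0 := Int.even_iff.1 (Int.even_mul_succ_self t)
    have e2 : t ^ 2 + (2 * k + 1) * t + c = t * (t + 1) + 2 * (k * t) + c := by ring
    rw [e2]
    omega
  · obtain ⟨S, hS⟩ := EvenAlmostPrimes.part2 b c (by omega)
    obtain ⟨h, h1, h2, h3⟩ := sign_of_set S
    exact ⟨h, h1, h2, fun t t1 t2 t3 => h3 _ (hS t t1 t2 t3)⟩

/-- Let `f(t) = t ^ 2 + b t + c` have nonsquare discriminant `D = b ^ 2 - 4 c`.

(1) If `D` is not `1` modulo `3`, and `D` is `5` modulo `8`, `12` modulo `16` or `0` modulo `32`,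
then for every completely multiplicative function `h` with values `1` and `-1` and all `X ≥ X₀`
(with `X₀` depending only on `b`, `c`), at least `X ^ (1/4) / log ^ 602 X` of the `t ≤ X` are such
that `f(t)` is positive, `h (f(t)) = 1` and all prime factors of `f(t)` exceed `X ^ (1/45000)`.

(2) For all other `D` there is a completely multiplicative function `h` with values `1` and `-1`
such that `h (f(t)) = -1` for every `t` for which `f(t)` is positive and prime to `6`. -/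
theorem result (b c : ℤ) (hD : ¬ IsSquare (b ^ 2 - 4 * c)) :
    (((b ^ 2 - 4 * c) % 3 ≠ 1 ∧
        ((b ^ 2 - 4 * c) % 8 = 5 ∨ (b ^ 2 - 4 * c) % 16 = 12 ∨ (b ^ 2 - 4 * c) % 32 = 0)) →
      ∃ X₀ : ℕ, ∀ h : ℕ → ℤ, (∀ m n : ℕ, m ≠ 0 → n ≠ 0 → h (m * n) = h m * h n) →
        (∀ m : ℕ, m ≠ 0 → h m = 1 ∨ h m = -1) → ∀ X : ℕ, X₀ ≤ X →
        (X : ℝ) ^ ((1 : ℝ) / 4) / Real.log X ^ 602 ≤
          (({t : ℕ | 1 ≤ t ∧ t ≤ X ∧ 0 < (t : ℤ) ^ 2 + b * t + c ∧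
            (∀ p : ℕ, p.Prime → (p : ℤ) ∣ (t : ℤ) ^ 2 + b * t + c →
              (X : ℝ) ^ ((1 : ℝ) / 45000) < p) ∧
            h ((t : ℤ) ^ 2 + b * t + c).toNat = 1} : Set ℕ).ncard : ℝ)) ∧
    (¬ ((b ^ 2 - 4 * c) % 3 ≠ 1 ∧
        ((b ^ 2 - 4 * c) % 8 = 5 ∨ (b ^ 2 - 4 * c) % 16 = 12 ∨ (b ^ 2 - 4 * c) % 32 = 0)) →
      ∃ h : ℕ → ℤ, (∀ m n : ℕ, m ≠ 0 → n ≠ 0 → h (m * n) = h m * h n) ∧
        (∀ m : ℕ, m ≠ 0 → h m = 1 ∨ h m = -1) ∧
        ∀ t : ℤ, 0 < t ^ 2 + b * t + c → ¬ 2 ∣ t ^ 2 + b * t + c → ¬ 3 ∣ t ^ 2 + b * t + c →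
          h (t ^ 2 + b * t + c).toNat = -1) :=
  ⟨fun h => positive b c hD h.1 h.2, negative b c⟩

end Pool.Agent.Results.MP_a17b09_nt.EvenRoughClassification
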